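import Pool.Agent.H527R2.UniT

/-!
# Counting spanning connected unicyclic subgraphs is `#P`-complete

`Pool.Agent.Uni.MGraph` is the type of multigraphs (list of vertices, list of edges), `Fcoeff G i`
is the coefficient `F_i` of the all-terminal reliability polynomial of `G`.  Polynomial time is
Mathlib's `Turing.TM2ComputableInPolyTime`.

Outline of the proof (all of it formalised in `Pool.Agent.H527R2`): the number of satisfying
assignments of a CNF formula is a signed count of exact covers by triples.  For the graph obtained
from the incidence graph (element-triple) with weights by adding `k` hubs joined to all vertices,
the number of spanning unicyclic subgraphs is, up to the number of spanning trees,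
`n ^ k * k ^ T * (A - sum_j (...) E_j)`, where `E_j` are the coefficients of the forest polynomial
of the incidence graph.  Finite differences in `k` eliminate the unknown constant `A` and give the
alternating sum of the `E_j`, which is the evaluation of the forest polynomial at a point where
edges between elements and triples cancel to low order in the weight `i` of the graph; its lowest
order coefficient in `i` is the signed number of exact covers and is found by interpolation.
-/

namespace Pool.Agent.Results.MP_c3079b_lc.UnicyclicSharpP

open Pool.Agent.Uni Pool.Agent.NPC Pool.Agent.NPC.Cnt

open Classical in
/-- **The reliability coefficient `F_{m-n}`, i.e. the number of spanning connected unicyclic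
subgraphs, is `#P`-complete.**
(1) Every function `g` on bit strings which, at the code of every connected loopless multigraph `G`
with `n` vertices and `m ≥ n` edges, takes the value `F_{m-n}(G)` is `#P`-hard under
polynomial-time Turing reductions.
(2) `F_{m-n}(G)` is the number of spanning connected unicyclic subgraphs.
(3) The function with value the number of spanning connected unicyclic subgraphs at the codes of
connected loopless multigraphs (and `0` at all other strings) is in `#P`. -/
theorem result :
    (∀ g : List Bool → ℕ,
      (∀ G : MGraph, IsConnGraph G → G.1.length ≤ G.2.length →
        g (bits G) = Fcoeff G (G.2.length - G.1.length)) → SharpPHard g) ∧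
    (∀ G : MGraph, G.1.length ≤ G.2.length →
      Fcoeff G (G.2.length - G.1.length) = unicyclicCount G) ∧
    SharpP (strFn fun G : MGraph => if IsConnGraph G then unicyclicCount G else 0) :=
  ⟨Pool.Agent.NPC.Uc.hard, Fcoeff_eq_unicyclicCount, Pool.Agent.NPC.Uc.mem_sharpP⟩

end Pool.Agent.Results.MP_c3079b_lc.UnicyclicSharpP
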